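import Mathlib
import Pool.Agent.Helper31.GZ.Brouwer

/-!
# Unordered configuration spaces of graphs with sinks need not be aspherical
-/

set_option autoImplicit false

open Set Topology unitInterval

namespace Pool.Agent.Results.MP_c15946_gt.UnorderedSinks

/-- A finite graph, i.e. the combinatorial data of a finite 1-dimensional CW complex: finitely many
vertices (0-cells), finitely many edges (1-cells), and the two endpoints of every edge.  Loops and
multiple edges are allowed. -/
structure FinGraph where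
  V : Type
  E : Type
  finV : Finite V
  finE : Finite E
  src : E → V
  tgt : E → V

namespace FinGraph

/-- The disjoint union of the vertices and of one closed unit interval for each edge. -/
def Cells (Γ : FinGraph) : Type := Γ.V ⊕ (Γ.E × I)

/-- vertices and edges are discrete, `I` is the unit interval -/
instance (Γ : FinGraph) : TopologicalSpace Γ.Cells :=
  letI : TopologicalSpace Γ.V := ⊥
  letI : TopologicalSpace Γ.E := ⊥
  inferInstanceAs (TopologicalSpace (Γ.V ⊕ (Γ.E × I)))

/-- The gluing: the point `0` (resp. `1`) of the interval of an edge is glued to its source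
(resp. target). -/
inductive Glue (Γ : FinGraph) : Γ.Cells → Γ.Cells → Prop
  | src (e : Γ.E) : Glue Γ (Sum.inr (e, 0)) (Sum.inl (Γ.src e))
  | tgt (e : Γ.E) : Glue Γ (Sum.inr (e, 1)) (Sum.inl (Γ.tgt e))

/-- The topological space of a finite graph. -/
def Space (Γ : FinGraph) : Type := Quot Γ.Glue

/-- quotient topology -/
instance (Γ : FinGraph) : TopologicalSpace Γ.Space :=
  inferInstanceAs (TopologicalSpace (Quot Γ.Glue))

/-- A vertex, as a point of the graph. -/
def vertex (Γ : FinGraph) (v : Γ.V) : Γ.Space := Quot.mk Γ.Glue (Sum.inl v)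

/-- A point of an edge, as a point of the graph. -/
def point (Γ : FinGraph) (e : Γ.E) (t : I) : Γ.Space := Quot.mk Γ.Glue (Sum.inr (e, t))

end FinGraph

/-- The ordered configuration space `F_k(Γ, S)` of the graph with sinks `(Γ, S)`. -/
def OrdConf (Γ : FinGraph) (S : Set Γ.V) (k : ℕ) : Type :=
  {x : Fin k → Γ.Space // ∀ i j, i ≠ j → x i = x j → ∃ v ∈ S, x i = Γ.vertex v}

/-- subspace topology -/
instance (Γ : FinGraph) (S : Set Γ.V) (k : ℕ) : TopologicalSpace (OrdConf Γ S k) :=
  inferInstanceAs (TopologicalSpace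
    {x : Fin k → Γ.Space // ∀ i j, i ≠ j → x i = x j → ∃ v ∈ S, x i = Γ.vertex v})

/-- Two ordered configurations are equivalent if they differ by a permutation of the particles. -/
def permSetoid (Γ : FinGraph) (S : Set Γ.V) (k : ℕ) : Setoid (OrdConf Γ S k) where
  r x y := ∃ g : Equiv.Perm (Fin k), ∀ i, y.1 i = x.1 (g i)
  iseqv :=
    { refl := fun _ => ⟨1, fun _ => rfl⟩
      symm := fun {x y} ⟨g, h⟩ => ⟨g⁻¹, fun i => by rw [h]; simp⟩
      trans := fun {x y z} ⟨g, h⟩ ⟨g', h'⟩ => ⟨g * g', fun i => by rw [h', h]; simp⟩ }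

/-- The unordered configuration space `B_k(Γ, S) = F_k(Γ, S) / Σ_k`. -/
def UnordConf (Γ : FinGraph) (S : Set Γ.V) (k : ℕ) : Type := Quotient (permSetoid Γ S k)

/-- quotient topology -/
instance (Γ : FinGraph) (S : Set Γ.V) (k : ℕ) : TopologicalSpace (UnordConf Γ S k) :=
  inferInstanceAs (TopologicalSpace (Quotient (permSetoid Γ S k)))

/-- A space is aspherical if all its homotopy groups `π_n(X, x)`, `n ≥ 2`, `x ∈ X`, are trivial. -/
def Aspherical (X : Type) [TopologicalSpace X] : Prop :=
  ∀ n : ℕ, 2 ≤ n → ∀ x : X, Subsingleton (HomotopyGroup.Pi n X x)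

/-! ### The maps to the circle -/

section
variable (Γ : FinGraph)

open Classical in
/-- the circle valued map wrapping the edge `f` once and collapsing everything else -/
noncomputable def circ0 (f : Γ.E) : Γ.Cells → AddCircle (1 : ℝ) :=
  Sum.elim (fun _ => 0) (fun q => if q.1 = f then (((q.2 : I) : ℝ) : AddCircle (1 : ℝ)) else 0)

lemma circ0_continuous (f : Γ.E) : Continuous (circ0 Γ f) := by
  let _ : TopologicalSpace Γ.V := ⊥
  let _ : TopologicalSpace Γ.E := ⊥
  have _ : DiscreteTopology Γ.V := ⟨rfl⟩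
  have _ : DiscreteTopology Γ.E := ⟨rfl⟩
  refine Continuous.sumElim (f := fun _ : Γ.V => (0 : AddCircle (1 : ℝ))) continuous_const ?_
  rw [continuous_prod_of_discrete_left]
  intro e
  by_cases h : e = f
  · simp only [h, if_true]
    exact (AddCircle.continuous_mk' (1 : ℝ)).comp continuous_subtype_val
  · simp only [h, if_false]
    exact continuous_const

noncomputable def circ (f : Γ.E) : Γ.Space → AddCircle (1 : ℝ) :=
  Quot.lift (circ0 Γ f) (by
    rintro _ _ (e | e)
    · simp [circ0]
    · simp only [circ0, Sum.elim_inr, Sum.elim_inl]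
      split_ifs
      · have := AddCircle.coe_period (1 : ℝ)
        simpa using this
      · rfl)

lemma circ_continuous (f : Γ.E) : Continuous (circ Γ f) :=
  continuous_quot_lift _ (circ0_continuous Γ f)

lemma circ_vertex (f : Γ.E) (v : Γ.V) : circ Γ f (Γ.vertex v) = 0 := rfl

lemma circ_point_self (f : Γ.E) (t : I) :
    circ Γ f (Γ.point f t) = ((t : ℝ) : AddCircle (1 : ℝ)) := by
  change circ0 Γ f (Sum.inr (f, t)) = _
  simp [circ0]

lemma circ_point_ne {f e : Γ.E} (h : e ≠ f) (t : I) : circ Γ f (Γ.point e t) = 0 := by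
  change circ0 Γ f (Sum.inr (e, t)) = _
  simp [circ0, h]

lemma point_continuous (e : Γ.E) : Continuous (fun t : I => Γ.point e t) := by
  let _ : TopologicalSpace Γ.V := ⊥
  let _ : TopologicalSpace Γ.E := ⊥
  have _ : DiscreteTopology Γ.E := ⟨rfl⟩
  have h1 : Continuous (fun t : I => (Sum.inr (e, t) : Γ.V ⊕ (Γ.E × I))) :=
    continuous_inr.comp (Continuous.prodMk continuous_const continuous_id)
  exact continuous_quot_mk.comp h1

lemma point_zero (e : Γ.E) : Γ.point e 0 = Γ.vertex (Γ.src e) := Quot.sound (FinGraph.Glue.src e)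
lemma point_one (e : Γ.E) : Γ.point e 1 = Γ.vertex (Γ.tgt e) := Quot.sound (FinGraph.Glue.tgt e)

/-- the multiplied map on unordered configurations -/
noncomputable def psi {S : Set Γ.V} (f : Γ.E) : UnordConf Γ S 2 → AddCircle (1 : ℝ) :=
  Quotient.lift (fun x : OrdConf Γ S 2 => ∑ j, circ Γ f (x.1 j)) (by
    rintro x y ⟨g, h⟩
    simp only [h]
    exact (Equiv.sum_comp g (fun j => circ Γ f (x.1 j))).symm)

lemma psi_continuous {S : Set Γ.V} (f : Γ.E) : Continuous (psi Γ (S := S) f) := by
  refine Continuous.quotient_lift ?_ _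
  exact continuous_finsetSum _ fun j _ =>
    (circ_continuous Γ f).comp ((continuous_apply j).comp continuous_subtype_val)

end

lemma f3a : ∀ i : Fin 3, i + 1 ≠ i + 2 := by decide
lemma f3b : ∀ i : Fin 3, i + 1 + 1 = i + 2 := by decide
lemma f3c : ∀ i : Fin 3, i + 1 + 2 = i := by decide
lemma f3d : ∀ i j : Fin 3, j = i ∨ j = i + 1 ∨ i = j + 1 := by decide
lemma f3e : ∀ i j : Fin 3, j = i ∨ j = i + 1 ∨ j = i + 2 := by decide
lemma f3f : ∀ i : Fin 3, i + 1 ≠ i := by decide
lemma f3g : ∀ i : Fin 3, i + 2 ≠ i := by decide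
lemma f3h : ∀ a b : Fin 3, ∃ i : Fin 3, i ≠ a ∧ i ≠ b := by decide

/-- the endpoints of the unit interval -/
def IsEnd (t : I) : Prop := t = 0 ∨ t = 1

lemma coe_eq_zero_iff (t : I) : (((t : I) : ℝ) : AddCircle (1 : ℝ)) = 0 ↔ IsEnd t := by
  rw [AddCircle.coe_eq_zero_iff]
  constructor
  · rintro ⟨n, hn⟩
    have h0 := t.2.1
    have h1 := t.2.2
    rw [← hn] at h0 h1
    simp only [zsmul_eq_mul, mul_one] at h0 h1 hn
    have hn0 : (0 : ℤ) ≤ n := by exact_mod_cast h0
    have hn1 : n ≤ (1 : ℤ) := by exact_mod_cast h1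
    obtain rfl | rfl : n = 0 ∨ n = 1 := by omega
    · left; apply Subtype.ext; simpa using hn.symm
    · right; apply Subtype.ext; simpa using hn.symm
  · rintro (rfl | rfl)
    · exact ⟨0, by simp⟩
    · exact ⟨1, by simp⟩

section
variable {Γ : FinGraph} {S : Set Γ.V} {v : Γ.V} (hv : v ∈ S) (e : Fin 3 → Γ.E)
  (he : Function.Injective e) (hs : ∀ i, Γ.src (e i) = v) (ht : ∀ i, Γ.tgt (e i) = v)

include hs ht in
lemma point_end (i : Fin 3) {t : I} (h : IsEnd t) : Γ.point (e i) t = Γ.vertex v := by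
  rcases h with rfl | rfl
  · rw [point_zero, hs]
  · rw [point_one, ht]

include he hs ht in
lemma point_eq {i j : Fin 3} (hij : i ≠ j) {s t : I} (h : Γ.point (e i) s = Γ.point (e j) t) :
    Γ.point (e i) s = Γ.vertex v := by
  have h1 := congrArg (circ Γ (e i)) h
  rw [circ_point_self, circ_point_ne Γ (fun h => hij (he h).symm), coe_eq_zero_iff] at h1
  exact point_end e hs ht i h1

include hv he hs ht in
lemma cf_mem (i : Fin 3) (p : Fin 3 → I) (a b : Fin 2) (hab : a ≠ b)
    (h : (![Γ.point (e (i + 1)) (p (i + 1)), Γ.point (e (i + 2)) (p (i + 2))] : Fin 2 → Γ.Space) a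
      = ![Γ.point (e (i + 1)) (p (i + 1)), Γ.point (e (i + 2)) (p (i + 2))] b) :
    ∃ w ∈ S, (![Γ.point (e (i + 1)) (p (i + 1)), Γ.point (e (i + 2)) (p (i + 2))] :
      Fin 2 → Γ.Space) a = Γ.vertex w := by
  refine ⟨v, hv, ?_⟩
  have hne := f3a i
  fin_cases a <;> fin_cases b
  · exact absurd rfl hab
  · exact point_eq e he hs ht hne h
  · exact point_eq e he hs ht hne.symm h
  · exact absurd rfl hab

/-- the configuration obtained by forgetting the `i`-th particle -/
def cf (i : Fin 3) (p : Fin 3 → I) : OrdConf Γ S 2 :=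
  ⟨![Γ.point (e (i + 1)) (p (i + 1)), Γ.point (e (i + 2)) (p (i + 2))],
    fun a b hab h => cf_mem hv e he hs ht i p a b hab h⟩

/-- its unordered version -/
def uf (i : Fin 3) (p : Fin 3 → I) : UnordConf Γ S 2 :=
  Quotient.mk (permSetoid Γ S 2) (cf hv e he hs ht i p)

lemma cf_continuous (i : Fin 3) : Continuous (cf hv e he hs ht i) := by
  refine Continuous.subtype_mk ?_ _
  refine continuous_pi fun a => ?_
  fin_cases a
  · exact (point_continuous Γ _).comp (continuous_apply _)
  · exact (point_continuous Γ _).comp (continuous_apply _)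

lemma uf_continuous (i : Fin 3) : Continuous (uf hv e he hs ht i) :=
  continuous_quotient_mk'.comp (cf_continuous hv e he hs ht i)

lemma uf_succ (i : Fin 3) (p : Fin 3 → I) (h0 : IsEnd (p i)) (h1 : IsEnd (p (i + 1))) :
    uf hv e he hs ht i p = uf hv e he hs ht (i + 1) p := by
  apply Quotient.sound
  change ∃ g : Equiv.Perm (Fin 2), ∀ a, (cf hv e he hs ht (i + 1) p).1 a =
    (cf hv e he hs ht i p).1 (g a)
  refine ⟨Equiv.swap 0 1, fun a => ?_⟩
  have h3 := f3b i
  have h4 := f3c i
  have ha := point_end e hs ht i h0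
  have hb := point_end e hs ht (i + 1) h1
  fin_cases a
  · change Γ.point (e (i + 1 + 1)) (p (i + 1 + 1)) = Γ.point (e (i + 2)) (p (i + 2))
    rw [h3]
  · change Γ.point (e (i + 1 + 2)) (p (i + 1 + 2)) = Γ.point (e (i + 1)) (p (i + 1))
    rw [h4, ha, hb]

lemma uf_eq (i j : Fin 3) (p : Fin 3 → I) (hi : IsEnd (p i)) (hj : IsEnd (p j)) :
    uf hv e he hs ht i p = uf hv e he hs ht j p := by
  obtain rfl | rfl | h := f3d i j
  · rfl
  · exact uf_succ hv e he hs ht i p hi hj
  · subst h
    exact (uf_succ hv e he hs ht j p hj hi).symm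

lemma psi_uf (i j : Fin 3) (p : Fin 3 → I) (hi : IsEnd (p i)) :
    psi Γ (e j) (uf hv e he hs ht i p) = (((p j : I) : ℝ) : AddCircle (1 : ℝ)) := by
  change ∑ a, circ Γ (e j) ((cf hv e he hs ht i p).1 a) = _
  rw [Fin.sum_univ_two]
  change circ Γ (e j) (Γ.point (e (i + 1)) (p (i + 1))) +
    circ Γ (e j) (Γ.point (e (i + 2)) (p (i + 2))) = _
  obtain rfl | rfl | rfl := f3e i j
  · rw [circ_point_ne Γ (fun h => f3f j (he h)),
      circ_point_ne Γ (fun h => f3g j (he h)), (coe_eq_zero_iff _).2 hi,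
      add_zero]
  · rw [circ_point_self, circ_point_ne Γ (fun h => (f3a i).symm (he h)),
      add_zero]
  · rw [circ_point_self, circ_point_ne Γ (fun h => f3a i (he h)),
      zero_add]

include he in
lemma exists_psi_zero (x : UnordConf Γ S 2) : ∃ i : Fin 3, psi Γ (e i) x = 0 := by
  have key : ∀ q : Γ.Space, ∃ a : Fin 3, ∀ i, i ≠ a → circ Γ (e i) q = 0 := by
    intro q
    induction q using Quot.ind with
    | mk c =>
      rcases c with w | ⟨f, t⟩
      · exact ⟨0, fun i _ => rfl⟩
      · by_cases h : ∃ a, e a = f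
        · obtain ⟨a, rfl⟩ := h
          exact ⟨a, fun i hi => circ_point_ne Γ (fun h => hi (he h).symm) t⟩
        · exact ⟨0, fun i _ => circ_point_ne Γ (fun h' => h ⟨i, h'.symm⟩) t⟩
  induction x using Quotient.ind with
  | _ x =>
    obtain ⟨a, ha⟩ := key (x.1 0)
    obtain ⟨b, hb⟩ := key (x.1 1)
    obtain ⟨i, h1, h2⟩ := f3h a b
    refine ⟨i, ?_⟩
    change ∑ j, circ Γ (e i) (x.1 j) = 0
    rw [Fin.sum_univ_two, ha i h1, hb i h2, add_zero]

/-! ### The map of the square onto the boundary of the cube -/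

noncomputable def zz (y : Fin 2 → I) (i : Fin 2) : ℝ := 2 * (y i : ℝ) - 1
noncomputable def rr (y : Fin 2 → I) : ℝ := max |zz y 0| |zz y 1|
noncomputable def WW (y : Fin 2 → I) : Fin 3 → ℝ :=
  ![(1 - rr y) * zz y 0, (1 - rr y) * zz y 1, 2 * rr y - 1]
noncomputable def mm (y : Fin 2 → I) : ℝ := max (max |WW y 0| |WW y 1|) |WW y 2|
noncomputable def PP (y : Fin 2 → I) (j : Fin 3) : I :=
  projIcc 0 1 zero_le_one (1 / 2 + WW y j / (2 * mm y))

lemma zz_continuous (i : Fin 2) : Continuous (fun y => zz y i) := by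
  unfold zz
  exact (continuous_const.mul (continuous_subtype_val.comp (continuous_apply i))).sub continuous_const

lemma rr_continuous : Continuous rr := (zz_continuous 0).abs.max (zz_continuous 1).abs

lemma WW_continuous (j : Fin 3) : Continuous (fun y => WW y j) := by
  have h0 := zz_continuous 0
  have h1 := zz_continuous 1
  have hr := rr_continuous
  fin_cases j
  · change Continuous (fun y => (1 - rr y) * zz y 0)
    fun_prop
  · change Continuous (fun y => (1 - rr y) * zz y 1)
    fun_prop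
  · change Continuous (fun y => 2 * rr y - 1)
    fun_prop

lemma mm_continuous : Continuous mm :=
  ((WW_continuous 0).abs.max (WW_continuous 1).abs).max (WW_continuous 2).abs

lemma WW_le (y : Fin 2 → I) (j : Fin 3) : |WW y j| ≤ mm y := by
  fin_cases j
  · exact (le_max_left _ _).trans (le_max_left _ _)
  · exact (le_max_right _ _).trans (le_max_left _ _)
  · exact le_max_right _ _

lemma exists_mm (y : Fin 2 → I) : ∃ j, |WW y j| = mm y := by
  rcases max_choice (max |WW y 0| |WW y 1|) |WW y 2| with h | h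
  · rcases max_choice |WW y 0| |WW y 1| with h' | h'
    · exact ⟨0, by unfold mm; rw [h, h']⟩
    · exact ⟨1, by unfold mm; rw [h, h']⟩
  · exact ⟨2, by unfold mm; rw [h]⟩

lemma mm_pos (y : Fin 2 → I) : 0 < mm y := by
  have h0 : 0 ≤ mm y := (abs_nonneg _).trans (WW_le y 0)
  rcases h0.lt_or_eq with h | h
  · exact h
  · exfalso
    have hW : ∀ j, WW y j = 0 := fun j => by
      have := WW_le y j
      rw [← h] at this
      exact abs_eq_zero.1 (le_antisymm this (abs_nonneg _))
    have h2 : 2 * rr y - 1 = 0 := hW 2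
    have h1 : (1 - rr y) * zz y 0 = 0 := hW 0
    have h3 : (1 - rr y) * zz y 1 = 0 := hW 1
    have hr : rr y = 1 / 2 := by linarith
    have hz0 : zz y 0 = 0 := by rw [hr] at h1; linarith
    have hz1 : zz y 1 = 0 := by rw [hr] at h3; linarith
    unfold rr at hr
    rw [hz0, hz1] at hr
    norm_num at hr

lemma PP_coe (y : Fin 2 → I) (j : Fin 3) :
    ((PP y j : I) : ℝ) = 1 / 2 + WW y j / (2 * mm y) := by
  have hm := mm_pos y
  have h1 := abs_le.1 (WW_le y j)
  unfold PP
  rw [projIcc_of_mem zero_le_one (x := 1 / 2 + WW y j / (2 * mm y))]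
  constructor
  · have : -(1 / 2) ≤ WW y j / (2 * mm y) := by
      rw [le_div_iff₀ (by linarith)]; linarith
    linarith
  · have : WW y j / (2 * mm y) ≤ 1 / 2 := by
      rw [div_le_iff₀ (by linarith)]; linarith
    linarith

lemma PP_continuous (j : Fin 3) : Continuous (fun y => PP y j) := by
  unfold PP
  refine continuous_projIcc.comp (continuous_const.add ((WW_continuous j).div
    (continuous_const.mul mm_continuous) fun y => ?_))
  exact (mul_pos two_pos (mm_pos y)).ne'

lemma PP_continuous' : Continuous PP := continuous_pi PP_continuous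

lemma PP_end (y : Fin 2 → I) : ∃ j, IsEnd (PP y j) := by
  obtain ⟨j, hj⟩ := exists_mm y
  have hm := mm_pos y
  refine ⟨j, ?_⟩
  rcases abs_eq hm.le |>.1 hj with h | h
  · right
    apply Subtype.ext
    rw [PP_coe, h]
    field_simp
    norm_num
  · left
    apply Subtype.ext
    rw [PP_coe, h]
    field_simp
    norm_num

lemma zz_abs_le (y : Fin 2 → I) (i : Fin 2) : |zz y i| ≤ 1 := by
  have h0 := (y i).2.1
  have h1 := (y i).2.2
  unfold zz
  rw [abs_le]
  constructor <;> linarith

lemma rr_le (y : Fin 2 → I) : rr y ≤ 1 := max_le (zz_abs_le y 0) (zz_abs_le y 1)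

lemma rr_boundary {y : Fin 2 → I} (hy : y ∈ Cube.boundary (Fin 2)) : rr y = 1 := by
  refine le_antisymm (rr_le y) ?_
  obtain ⟨i, hi⟩ := hy
  have h : |zz y i| = 1 := by
    unfold zz
    rcases hi with h | h <;> rw [h] <;> norm_num
  rw [← h]
  fin_cases i
  · exact le_max_left _ _
  · exact le_max_right _ _

lemma WW_boundary {y : Fin 2 → I} (hy : y ∈ Cube.boundary (Fin 2)) : WW y = ![0, 0, 1] := by
  unfold WW
  rw [rr_boundary hy]
  norm_num

lemma mm_boundary {y : Fin 2 → I} (hy : y ∈ Cube.boundary (Fin 2)) : mm y = 1 := by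
  unfold mm
  rw [WW_boundary hy]
  simp

lemma PP_boundary {y : Fin 2 → I} (hy : y ∈ Cube.boundary (Fin 2)) (j : Fin 3) :
    ((PP y j : I) : ℝ) = 1 / 2 + (![0, 0, 1] : Fin 3 → ℝ) j / 2 := by
  rw [PP_coe, WW_boundary hy, mm_boundary hy, mul_one]

/-- a boundary point of the square -/
def y0 : Fin 2 → I := fun _ => 0

lemma y0_mem : y0 ∈ Cube.boundary (Fin 2) := ⟨0, Or.inl rfl⟩

lemma PP_eq {y : Fin 2 → I} (hy : y ∈ Cube.boundary (Fin 2)) : PP y = PP y0 := by
  funext j
  apply Subtype.ext
  rw [PP_boundary hy, PP_boundary y0_mem]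

open Classical in
/-- the unordered configuration attached to a point of the boundary of the cube -/
noncomputable def FF (p : Fin 3 → I) : UnordConf Γ S 2 :=
  if IsEnd (p 0) then uf hv e he hs ht 0 p else
    if IsEnd (p 1) then uf hv e he hs ht 1 p else uf hv e he hs ht 2 p

lemma FF_eq (i : Fin 3) (p : Fin 3 → I) (h : IsEnd (p i)) :
    FF hv e he hs ht p = uf hv e he hs ht i p := by
  unfold FF
  split_ifs with h0 h1
  · exact uf_eq hv e he hs ht 0 i p h0 h
  · exact uf_eq hv e he hs ht 1 i p h1 h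
  · fin_cases i
    · exact absurd h h0
    · exact absurd h h1
    · rfl

lemma FP_continuous : Continuous (fun y => FF hv e he hs ht (PP y)) := by
  have hcl : IsClosed {t : I | IsEnd t} := by
    have : {t : I | IsEnd t} = {0, 1} := by
      ext t; simp [IsEnd]
    rw [this]
    exact (Set.toFinite _).isClosed
  refine LocallyFinite.continuous (f := fun i : Fin 3 => {y | IsEnd (PP y i)})
    (locallyFinite_of_finite _) ?_ ?_ ?_
  · rw [eq_univ_iff_forall]
    intro y
    obtain ⟨j, hj⟩ := PP_end y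
    exact mem_iUnion.2 ⟨j, hj⟩
  · intro i
    exact hcl.preimage (PP_continuous i)
  · intro i
    refine ((uf_continuous hv e he hs ht i).comp PP_continuous').continuousOn.congr ?_
    intro y hy
    exact FF_eq hv e he hs ht i (PP y) hy

lemma psi_FP (y : Fin 2 → I) (j : Fin 3) :
    psi Γ (e j) (FF hv e he hs ht (PP y)) = (((PP y j : I) : ℝ) : AddCircle (1 : ℝ)) := by
  obtain ⟨i, hi⟩ := PP_end y
  rw [FF_eq hv e he hs ht i _ hi, psi_uf hv e he hs ht i j _ hi]

/-- clamp to the unit interval -/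
noncomputable def tcl (s : ℝ) : I := Set.projIcc 0 1 zero_le_one ((1 + s) / 2)

lemma continuous_tcl : Continuous tcl := by
  unfold tcl
  exact continuous_projIcc.comp (by fun_prop)

lemma tcl_val {s : ℝ} (h0 : -1 ≤ s) (h1 : s ≤ 1) : ((tcl s : I) : ℝ) = (1 + s) / 2 := by
  unfold tcl
  rw [Set.projIcc_of_mem zero_le_one ⟨by linarith, by linarith⟩]

include hv he hs ht in
theorem not_subsingleton : ∃ x : UnordConf Γ S 2,
    ¬ Subsingleton (HomotopyGroup.Pi 2 (UnordConf Γ S 2) x) := by
  set b := FF hv e he hs ht (PP y0) with hb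
  let p : C(Fin 2 → I, UnordConf Γ S 2) := ⟨fun y => FF hv e he hs ht (PP y),
    FP_continuous hv e he hs ht⟩
  have hp : p ∈ GenLoop (Fin 2) (UnordConf Γ S 2) b := by
    intro y hy
    change FF hv e he hs ht (PP y) = b
    rw [PP_eq hy]
  refine ⟨b, fun hsub => ?_⟩
  have heq : (Quotient.mk (GenLoop.Homotopic.setoid (Fin 2) b) ⟨p, hp⟩ :
      HomotopyGroup (Fin 2) (UnordConf Γ S 2) b) =
      Quotient.mk (GenLoop.Homotopic.setoid (Fin 2) b) GenLoop.const :=
    @Subsingleton.elim _ hsub _ _
  obtain ⟨H⟩ : (GenLoop.Homotopic (⟨p, hp⟩ : GenLoop (Fin 2) (UnordConf Γ S 2) b) GenLoop.const) :=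
    Quotient.exact heq
  have hH0 : ∀ y, H (0, y) = p y := fun y => H.apply_zero y
  have hH1 : ∀ y, H (1, y) = b := fun y => H.apply_one y
  have hHb : ∀ t, ∀ y ∈ Cube.boundary (Fin 2), H (t, y) = b := fun t y hy => by
    rw [H.eq_fst t hy]
    exact hp y hy
  have cov := AddCircle.isCoveringMap_coe (1 : ℝ)
  let Gm : Fin 3 → C(I × (Fin 2 → I), AddCircle (1 : ℝ)) := fun j =>
    ⟨fun u => psi Γ (e j) (H u), (psi_continuous Γ (e j)).comp H.continuous⟩
  let Pr : Fin 3 → C(Fin 2 → I, ℝ) := fun j =>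
    ⟨fun y => ((PP y j : I) : ℝ), continuous_subtype_val.comp (PP_continuous j)⟩
  have hG0 : ∀ j, ∀ y, Gm j (0, y) = ((Pr j y : ℝ) : AddCircle (1 : ℝ)) := by
    intro j y
    change psi Γ (e j) (H (0, y)) = _
    rw [hH0]
    exact psi_FP hv e he hs ht y j
  let L : Fin 3 → C(I × (Fin 2 → I), ℝ) := fun j => cov.liftHomotopy (Gm j) (Pr j) (hG0 j)
  have hL : ∀ j u, ((L j u : ℝ) : AddCircle (1 : ℝ)) = psi Γ (e j) (H u) := fun j u =>
    congrFun (cov.liftHomotopy_lifts (Gm j) (Pr j) (hG0 j)) u
  have hL0 : ∀ j y, L j (0, y) = ((PP y j : I) : ℝ) := fun j y =>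
    cov.liftHomotopy_zero (Gm j) (Pr j) (hG0 j) y
  have hLb : ∀ j t, ∀ y ∈ Cube.boundary (Fin 2), L j (t, y) = ((PP y0 j : I) : ℝ) := by
    intro j t y hy
    have h1 := cov.const_of_comp (g := fun s : I => L j (s, y))
      ((L j).continuous.comp (Continuous.prodMk continuous_id continuous_const))
      (fun s s' => by
        rw [hL, hL, hHb s y hy, hHb s' y hy]) t 0
    change L j (t, y) = L j (0, y) at h1
    rw [h1, hL0, PP_eq hy]
  have hL1 : ∀ j y, L j (1, y) = ((PP y0 j : I) : ℝ) := by
    intro j y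
    have h1 := cov.const_of_comp (g := fun y : Fin 2 → I => L j (1, y))
      ((L j).continuous.comp (Continuous.prodMk continuous_const continuous_id))
      (fun s s' => by
        rw [hL, hL, hH1, hH1]) y y0
    change L j (1, y) = L j (1, y0) at h1
    rw [h1, hLb j 1 y0 y0_mem]
  have hLhalf : ∀ u, ∃ j, L j u ≠ 1 / 2 := by
    intro u
    obtain ⟨j, hj⟩ := exists_psi_zero e he (H u)
    refine ⟨j, fun h => ?_⟩
    rw [← hL, AddCircle.coe_eq_zero_iff] at hj
    obtain ⟨n, hn⟩ := hj
    rw [h] at hn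
    simp only [zsmul_eq_mul, mul_one] at hn
    have h2 : (2 * n : ℝ) = 1 := by rw [hn]; norm_num
    have h3 : 2 * n = 1 := by exact_mod_cast h2
    omega
  -- the map on the cube
  let ar : (Fin 2 → ℝ) × ℝ → I × (Fin 2 → I) := fun u => (tcl u.2, fun i => tcl (u.1 i))
  have har : Continuous ar := by
    refine Continuous.prodMk (continuous_tcl.comp continuous_snd) (continuous_pi fun i => ?_)
    exact continuous_tcl.comp ((continuous_apply i).comp continuous_fst)
  let G : (Fin 2 → ℝ) × ℝ → (Fin 2 → ℝ) × ℝ := fun u =>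
    (![L 0 (ar u) - 1 / 2, L 1 (ar u) - 1 / 2], L 2 (ar u) - 1 / 2)
  have hG : Continuous G := by
    refine Continuous.prodMk (continuous_pi fun i => ?_) ?_
    · fin_cases i
      · exact (((L 0).continuous.comp har).sub continuous_const)
      · exact (((L 1).continuous.comp har).sub continuous_const)
    · exact (((L 2).continuous.comp har).sub continuous_const)
  have hGz : ∀ u, G u ≠ 0 := by
    intro u h
    obtain ⟨j, hj⟩ := hLhalf (ar u)
    apply hj
    have h1 : (G u).1 = 0 := by rw [h]; rfl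
    have h2 : (G u).2 = 0 := by rw [h]; rfl
    fin_cases j
    · have := congrFun h1 0
      change L 0 (ar u) - 1 / 2 = 0 at this
      change L 0 (ar u) = 1 / 2
      linarith
    · have := congrFun h1 1
      change L 1 (ar u) - 1 / 2 = 0 at this
      change L 1 (ar u) = 1 / 2
      linarith
    · change L 2 (ar u) - 1 / 2 = 0 at h2
      change L 2 (ar u) = 1 / 2
      linarith
  have hGn : ∀ u, 0 < ‖G u‖ := fun u => norm_pos_iff.2 (hGz u)
  obtain ⟨u, hu⟩ := Pool.Agent.Helper31.GZ.Brouwer.brouwer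
    (fun u => -((‖G u‖)⁻¹ • G u)) ((hG.norm.inv₀ fun u => (hGn u).ne').smul hG).neg 1
    (fun u => by
      rw [norm_neg, norm_smul, norm_inv, norm_norm, inv_mul_cancel₀ (hGn u).ne'])
  obtain ⟨M, hM⟩ : ∃ M : ℝ, M = ‖G u‖ := ⟨_, rfl⟩
  have hM0 : 0 < M := by rw [hM]; exact hGn u
  have hu1 : ‖u‖ = 1 := by
    rw [← hu, norm_neg, norm_smul, norm_inv, norm_norm, inv_mul_cancel₀ (hGn u).ne']
  have hGu : G u = -(M • u) := by
    have h1 : M • u = -(G u) := by
      conv_lhs => rw [← hu]
      rw [← hM, smul_neg, smul_smul, mul_inv_cancel₀ hM0.ne', one_smul]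
    rw [h1, neg_neg]
  have hc0 : L 0 (ar u) - 1 / 2 = -(M * u.1 0) := congrFun (congrArg Prod.fst hGu) 0
  have hc1 : L 1 (ar u) - 1 / 2 = -(M * u.1 1) := congrFun (congrArg Prod.fst hGu) 1
  have hc2 : L 2 (ar u) - 1 / 2 = -(M * u.2) := congrArg Prod.snd hGu
  have hu2 : |u.2| ≤ 1 := by
    rw [← hu1]; exact norm_snd_le u
  have hui : ∀ i, |u.1 i| ≤ 1 := fun i => by
    rw [← hu1]; exact (norm_le_pi_norm u.1 i).trans (norm_fst_le u)
  have hp0 : ((PP y0 0 : I) : ℝ) = 1 / 2 := by rw [PP_boundary y0_mem]; simp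
  have hp1 : ((PP y0 1 : I) : ℝ) = 1 / 2 := by rw [PP_boundary y0_mem]; simp
  have hp2 : ((PP y0 2 : I) : ℝ) = 1 := by rw [PP_boundary y0_mem]; simp; norm_num
  rcases le_or_gt 1 |u.2| with h | h
  · rcases (abs_eq zero_le_one).1 (le_antisymm hu2 h) with hs1 | hs1
    · -- top face
      have ha : ar u = (1, fun i => tcl (u.1 i)) := by
        change (tcl u.2, fun i => tcl (u.1 i)) = _
        rw [hs1]
        congr 1
        apply Subtype.ext
        rw [tcl_val (by norm_num) le_rfl]
        norm_num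
      rw [ha, hL1, hp2, hs1] at hc2
      linarith
    · -- bottom face
      have ha : ar u = (0, fun i => tcl (u.1 i)) := by
        change (tcl u.2, fun i => tcl (u.1 i)) = _
        rw [hs1]
        congr 1
        apply Subtype.ext
        rw [tcl_val le_rfl (by norm_num)]
        norm_num
      set y : Fin 2 → I := fun i => tcl (u.1 i) with hy
      have hz : ∀ i, zz y i = u.1 i := fun i => by
        have := abs_le.1 (hui i)
        unfold zz
        rw [hy]
        simp only
        rw [tcl_val this.1 this.2]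
        ring
      rw [ha, hL0, PP_coe] at hc0 hc1 hc2
      have hm := mm_pos y
      have h0 : (1 - rr y) * zz y 0 / (2 * mm y) = -(M * zz y 0) := by
        rw [hz 0] at *
        have : WW y 0 = (1 - rr y) * u.1 0 := by rw [← hz 0]; rfl
        rw [← this]
        linarith
      have h1 : (1 - rr y) * zz y 1 / (2 * mm y) = -(M * zz y 1) := by
        rw [hz 1] at *
        have : WW y 1 = (1 - rr y) * u.1 1 := by rw [← hz 1]; rfl
        rw [← this]
        linarith
      have h2 : (2 * rr y - 1) / (2 * mm y) = M := by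
        have : WW y 2 = 2 * rr y - 1 := rfl
        rw [← this]
        rw [hs1] at hc2
        linarith
      have hr : 0 < 2 * rr y - 1 := by
        rw [div_eq_iff (by positivity)] at h2
        rw [h2]
        positivity
      have hr1 := rr_le y
      have key : ∀ z : ℝ, z ≠ 0 → (1 - rr y) * z / (2 * mm y) = -(M * z) → False := by
        intro z hz0 hzz
        have h3 : ((1 - rr y) / (2 * mm y) + M) * z = 0 := by
          have : (1 - rr y) * z / (2 * mm y) = (1 - rr y) / (2 * mm y) * z := by ring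
          rw [this] at hzz
          linarith
        rcases mul_eq_zero.1 h3 with h4 | h4
        · have : 0 ≤ (1 - rr y) / (2 * mm y) := div_nonneg (by linarith) (by linarith)
          linarith
        · exact hz0 h4
      by_cases hz0 : zz y 0 = 0
      · by_cases hz1 : zz y 1 = 0
        · have : rr y = 0 := by unfold rr; rw [hz0, hz1]; simp
          linarith
        · exact key _ hz1 h1
      · exact key _ hz0 h0
  · -- a side face
    have h1 : ∃ i, |u.1 i| = 1 := by
      by_contra hne
      push Not at hne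
      have h2 : ∀ i, |u.1 i| < 1 := fun i => lt_of_le_of_ne (hui i) (hne i)
      have h3 : ‖u.1‖ < 1 := (pi_norm_lt_iff one_pos).2 h2
      have h4 : ‖u‖ < 1 := by
        rw [Prod.norm_def]
        exact max_lt h3 h
      linarith
    obtain ⟨i, hi⟩ := h1
    have hyb : (fun i => tcl (u.1 i)) ∈ Cube.boundary (Fin 2) := by
      refine ⟨i, ?_⟩
      rcases (abs_eq zero_le_one).1 hi with h5 | h5
      · right
        apply Subtype.ext
        change ((tcl (u.1 i) : I) : ℝ) = 1
        rw [h5, tcl_val (by norm_num) le_rfl]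
        norm_num
      · left
        apply Subtype.ext
        change ((tcl (u.1 i) : I) : ℝ) = 0
        rw [h5, tcl_val le_rfl (by norm_num)]
        norm_num
    have ha : ar u = (tcl u.2, fun i => tcl (u.1 i)) := rfl
    rw [ha, hLb _ _ _ hyb, hp0] at hc0
    rw [ha, hLb _ _ _ hyb, hp1] at hc1
    have hz : u.1 i = 0 := by
      fin_cases i
      · change u.1 0 = 0
        have : M * u.1 0 = 0 := by linarith
        exact (mul_eq_zero.1 this).resolve_left hM0.ne'
      · change u.1 1 = 0
        have : M * u.1 1 = 0 := by linarith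
        exact (mul_eq_zero.1 this).resolve_left hM0.ne'
    rw [hz] at hi
    norm_num at hi

end

/-- The wedge of `m` circles: one vertex and `m` loops. -/
def rose (m : ℕ) : FinGraph where
  V := Unit
  E := Fin m
  finV := inferInstance
  finE := inferInstance
  src := fun _ => ()
  tgt := fun _ => ()

/-- (1) Let `(Γ, S)` be a graph with sinks having a sink `v` with (at least) three loops based at `v`.
Then the unordered configuration space `B_2(Γ, S)` has a point `x` with `π_2(B_2(Γ, S), x) ≠ 0`.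
(2) In particular the unordered configuration space of two particles on the wedge of three circles
whose vertex is a sink is not aspherical.
(3) So it is not true that `F_k(Γ, S)` and `B_k(Γ, S)` are aspherical for every graph with sinks. -/
theorem result :
    (∀ (Γ : FinGraph) (S : Set Γ.V), ∀ v ∈ S,
      (∃ e : Fin 3 → Γ.E, Function.Injective e ∧ (∀ i, Γ.src (e i) = v) ∧ ∀ i, Γ.tgt (e i) = v) →
      ∃ x : UnordConf Γ S 2, ¬ Subsingleton (HomotopyGroup.Pi 2 (UnordConf Γ S 2) x)) ∧
    ¬ Aspherical (UnordConf (rose 3) Set.univ 2) ∧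
    ¬ ∀ (Γ : FinGraph) (S : Set Γ.V) (k : ℕ),
      Aspherical (OrdConf Γ S k) ∧ Aspherical (UnordConf Γ S k) := by
  have h1 : ∀ (Γ : FinGraph) (S : Set Γ.V), ∀ v ∈ S,
      (∃ e : Fin 3 → Γ.E, Function.Injective e ∧ (∀ i, Γ.src (e i) = v) ∧ ∀ i, Γ.tgt (e i) = v) →
      ∃ x : UnordConf Γ S 2, ¬ Subsingleton (HomotopyGroup.Pi 2 (UnordConf Γ S 2) x) := by
    rintro Γ S v hv ⟨e, he, hs, ht⟩
    exact not_subsingleton hv e he hs ht
  have h2 : ¬ Aspherical (UnordConf (rose 3) Set.univ 2) := by
    intro h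
    obtain ⟨x, hx⟩ := h1 (rose 3) Set.univ () (Set.mem_univ _)
      ⟨fun i => i, fun _ _ h => h, fun _ => rfl, fun _ => rfl⟩
    exact hx (h 2 le_rfl x)
  exact ⟨h1, h2, fun h => h2 (h (rose 3) Set.univ 2).2⟩

end Pool.Agent.Results.MP_c15946_gt.UnorderedSinks
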